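import Pool.Agent.Helper75.LM.Defs
import Pool.Agent.Helper54.LP.Loc

/-!
# LM, block F1: the moment of one block
-/

open MeasureTheory Real Set Filter Topology Metric
open scoped ENNReal NNReal

set_option autoImplicit false

namespace Pool.Agent.Helper60.LM

open Pool.Agent.Helper75.LM (GB)

/-- the windows -/
noncomputable def win (D : ℝ × ℝ → ℝ) (W α R : ℝ) : ℝ := ∫ r in Icc (R - W) (R + W), D (α, r)

theorem win_cont {D : ℝ × ℝ → ℝ} (hD : Continuous D) {W : ℝ} (hW : 0 ≤ W) : Continuous fun z : ℝ × ℝ => win D W z.2 z.1 := by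
  have e1 : ∀ z : ℝ × ℝ, win D W z.2 z.1 = ∫ s in (-W)..W, D (z.2, s + z.1) := by
    intro z
    unfold win
    rw [integral_Icc_eq_integral_Ioc, ← intervalIntegral.integral_of_le (by linarith),
      intervalIntegral.integral_comp_add_right (fun r => D (z.2, r))]
    congr 1 <;> ring
  simp only [e1]
  exact intervalIntegral.continuous_parametric_intervalIntegral_of_continuous' (f := fun (z : ℝ × ℝ) s => D (z.2, s + z.1))
    (hD.comp ((continuous_snd.comp continuous_fst).prodMk (continuous_snd.add (continuous_fst.comp continuous_fst)))) (-W) W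

theorem win_nonneg {D : ℝ × ℝ → ℝ} (hD0 : ∀ z, 0 ≤ D z) (W α R : ℝ) : 0 ≤ win D W α R :=
  setIntegral_nonneg measurableSet_Icc fun _ _ => hD0 _

/-- Hoelder, every exponent -/
theorem hold_pow {q : ℕ} (hq : 1 ≤ q) {α₀ : ℝ} {κ J G : ℝ → ℝ} (hκ : Continuous κ) (hκ0 : ∀ α, 0 ≤ κ α) (hJ : Continuous J) (hJ0 : ∀ α, 0 ≤ J α)
    (hG : Continuous G) (hG0 : ∀ α, 0 ≤ G α) (hGJ : ∀ α, G α ≤ J α ^ (1 / (q : ℝ)))
    (hκ1 : ∫ α in Icc (-α₀) α₀, κ α ≤ 20) :
    (∫ α in Icc (-α₀) α₀, κ α * G α) ^ q ≤ 21 ^ q * ∫ α in Icc (-α₀) α₀, κ α * J α := by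
  obtain ⟨n, rfl⟩ : ∃ n, q = n + 1 := ⟨q - 1, by omega⟩
  obtain ⟨S, hS⟩ : ∃ S : ℝ, S = ∫ α in Icc (-α₀) α₀, κ α * J α := ⟨_, rfl⟩
  have hS0 : 0 ≤ S := by
    rw [hS]
    exact setIntegral_nonneg measurableSet_Icc fun α _ => mul_nonneg (hκ0 α) (hJ0 α)
  have hG1 : 0 ≤ ∫ α in Icc (-α₀) α₀, κ α * G α :=
    setIntegral_nonneg measurableSet_Icc fun α _ => mul_nonneg (hκ0 α) (hG0 α)
  have hn : (0 : ℝ) < (n : ℝ) + 1 := by positivity
  have key : ∀ l : ℝ, 0 < l → S ≤ l ^ (n + 1) → ∫ α in Icc (-α₀) α₀, κ α * G α ≤ 21 * l := by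
    intro l hl hSl
    have hpt : ∀ α, κ α * G α ≤ l * κ α + 1 / l ^ n * (κ α * J α) := by
      intro α
      have h1 : G α ≤ l + 1 / l ^ n * J α := by
        refine (hGJ α).trans ?_
        obtain ⟨y, hy⟩ : ∃ y : ℝ, y = J α ^ (1 / ((n + 1 : ℕ) : ℝ)) := ⟨_, rfl⟩
        have hy0 : 0 ≤ y := by
          rw [hy]
          exact rpow_nonneg (hJ0 α) _
        have hy12 : y ^ (n + 1) = J α := by
          rw [hy, ← rpow_natCast, ← rpow_mul (hJ0 α)]
          push_cast
          rw [one_div, inv_mul_cancel₀ hn.ne', rpow_one]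
        rw [← hy, ← hy12]
        rcases le_total y l with h | h
        · have : 0 ≤ 1 / l ^ n * y ^ (n + 1) := by positivity
          linarith
        · have h2 : l ^ n ≤ y ^ n := pow_le_pow_left₀ hl.le h n
          have h3 : y ≤ 1 / l ^ n * y ^ (n + 1) := by
            rw [one_div, inv_mul_eq_div, le_div_iff₀ (by positivity)]
            calc y * l ^ n ≤ y * y ^ n := mul_le_mul_of_nonneg_left h2 hy0
              _ = y ^ (n + 1) := by ring
          linarith
      calc κ α * G α ≤ κ α * (l + 1 / l ^ n * J α) := mul_le_mul_of_nonneg_left h1 (hκ0 α)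
        _ = _ := by ring
    calc ∫ α in Icc (-α₀) α₀, κ α * G α ≤ ∫ α in Icc (-α₀) α₀, (l * κ α + 1 / l ^ n * (κ α * J α)) := by
          refine setIntegral_mono_on ?_ ?_ measurableSet_Icc fun α _ => hpt α
          · exact (hκ.mul hG).continuousOn.integrableOn_compact isCompact_Icc
          · exact ((continuous_const.mul hκ).add (continuous_const.mul (hκ.mul hJ))).continuousOn.integrableOn_compact isCompact_Icc
      _ = l * (∫ α in Icc (-α₀) α₀, κ α) + 1 / l ^ n * ∫ α in Icc (-α₀) α₀, κ α * J α := by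
          rw [integral_add, integral_const_mul, integral_const_mul]
          · exact (continuous_const.mul hκ).continuousOn.integrableOn_compact isCompact_Icc
          · exact (continuous_const.mul (hκ.mul hJ)).continuousOn.integrableOn_compact isCompact_Icc
      _ ≤ l * 20 + 1 / l ^ n * l ^ (n + 1) := by
          have h2 : 0 ≤ 1 / l ^ n := by positivity
          have h3 := mul_le_mul_of_nonneg_left hκ1 hl.le
          have h4 := mul_le_mul_of_nonneg_left hSl h2
          rw [← hS]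
          linarith
      _ = 21 * l := by
          have : l ^ n ≠ 0 := by positivity
          rw [pow_succ]
          field_simp
          ring
  rw [← hS]
  refine le_of_forall_pos_le_add fun ε hε => ?_
  have hSe : 0 < S + ε / 21 ^ (n + 1) := by positivity
  obtain ⟨l, hl⟩ : ∃ l : ℝ, l = (S + ε / 21 ^ (n + 1)) ^ (1 / ((n : ℝ) + 1)) := ⟨_, rfl⟩
  have hl0 : 0 < l := by rw [hl]; positivity
  have hl1 : l ^ (n + 1) = S + ε / 21 ^ (n + 1) := by
    rw [hl, ← rpow_natCast, ← rpow_mul hSe.le]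
    push_cast
    rw [one_div, inv_mul_cancel₀ hn.ne', rpow_one]
  have h1 := key l hl0 (by rw [hl1]; have : 0 ≤ ε / 21 ^ (n + 1) := by positivity
                           linarith)
  calc (∫ α in Icc (-α₀) α₀, κ α * G α) ^ (n + 1) ≤ (21 * l) ^ (n + 1) := pow_le_pow_left₀ hG1 h1 _
    _ = 21 ^ (n + 1) * (S + ε / 21 ^ (n + 1)) := by rw [mul_pow, hl1]
    _ = 21 ^ (n + 1) * S + ε := by
      field_simp

/-- F1: one block -/
theorem block_mom {κ g₀ : ℝ → ℝ} {D : ℝ × ℝ → ℝ} {α₀ A W X : ℝ} {q : ℕ} (hq : 1 ≤ q) (ha : 0 < α₀) (hκ : Continuous κ) (hκ0 : ∀ α, 0 ≤ κ α)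
    (hκ1 : ∫ α in Icc (-α₀) α₀, κ α ≤ 20) (hg : Continuous g₀) (hg0 : ∀ α, 0 ≤ g₀ α) (hD : Continuous D) (hD0 : ∀ z, 0 ≤ D z) (hA : 0 < A) (hX : 1 ≤ X)
    (hW : 0 < W) (hWX : W ≤ X / 2) {I : ℝ} (hI : ∫ α in Icc (-α₀) α₀, κ α * ∫ r in Icc (X / 4) (8 * X), D (α, r) ≤ I) :
    Continuous (GB κ g₀ D α₀ A W q) ∧ (∀ R, 0 ≤ GB κ g₀ D α₀ A W q R) ∧ (∀ R, GB κ g₀ D α₀ A W q R ≤ ∫ α in Icc (-α₀) α₀, κ α * g₀ α) ∧
      ∫ R in Icc X (2 * X), GB κ g₀ D α₀ A W q R ^ q ≤ 21 ^ q * (2 * W * (A * I)) := by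
  have hwc := win_cont hD hW.le
  have hw0 := win_nonneg hD0 W
  have hq0 : (0 : ℝ) ≤ 1 / (q : ℝ) := by positivity
  have hGc : Continuous fun z : ℝ × ℝ => min ((A * win D W z.2 z.1) ^ (1 / (q : ℝ))) (g₀ z.2) :=
    ((continuous_const.mul hwc).rpow_const fun _ => Or.inr hq0).min (hg.comp continuous_snd)
  have hGR : ∀ R : ℝ, Continuous fun α : ℝ => min ((A * win D W α R) ^ (1 / (q : ℝ))) (g₀ α) := fun R =>
    hGc.comp (continuous_const.prodMk continuous_id)
  have hG0 : ∀ α R : ℝ, 0 ≤ min ((A * win D W α R) ^ (1 / (q : ℝ))) (g₀ α) := fun α R =>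
    le_min (rpow_nonneg (mul_nonneg hA.le (hw0 α R)) _) (hg0 α)
  have hGB : GB κ g₀ D α₀ A W q = fun R => ∫ α in (-α₀)..α₀, κ α * min ((A * win D W α R) ^ (1 / (q : ℝ))) (g₀ α) := by
    funext R
    unfold GB win
    rw [integral_Icc_eq_integral_Ioc, ← intervalIntegral.integral_of_le (by linarith)]
  have hc : Continuous (GB κ g₀ D α₀ A W q) := by
    rw [hGB]
    exact intervalIntegral.continuous_parametric_intervalIntegral_of_continuous'
      (f := fun R α => κ α * min ((A * win D W α R) ^ (1 / (q : ℝ))) (g₀ α)) ((hκ.comp continuous_snd).mul hGc) (-α₀) α₀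
  have hGBn : ∀ R, 0 ≤ GB κ g₀ D α₀ A W q R := fun R =>
    setIntegral_nonneg measurableSet_Icc fun α _ => mul_nonneg (hκ0 α) (hG0 α R)
  refine ⟨hc, hGBn, fun R => ?_, ?_⟩
  · refine setIntegral_mono_on ?_ ?_ measurableSet_Icc fun α _ => mul_le_mul_of_nonneg_left (min_le_right _ _) (hκ0 α)
    · exact (hκ.mul (hGR R)).continuousOn.integrableOn_compact isCompact_Icc
    · exact (hκ.mul hg).continuousOn.integrableOn_compact isCompact_Icc
  · have hwR : ∀ R : ℝ, Continuous fun α : ℝ => A * win D W α R := fun R =>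
      continuous_const.mul (hwc.comp (continuous_const.prodMk continuous_id))
    have hpt : ∀ R, GB κ g₀ D α₀ A W q R ^ q ≤ 21 ^ q * ∫ α in Icc (-α₀) α₀, κ α * (A * win D W α R) := fun R =>
      hold_pow hq hκ hκ0 (hwR R) (fun α => mul_nonneg hA.le (hw0 α R)) (hGR R) (fun α => hG0 α R)
        (fun α => min_le_left _ _) hκ1
    have hjc : Continuous fun z : ℝ × ℝ => κ z.2 * (A * win D W z.2 z.1) := (hκ.comp continuous_snd).mul (continuous_const.mul hwc)
    have hSc : Continuous fun R : ℝ => ∫ α in Icc (-α₀) α₀, κ α * (A * win D W α R) := by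
      have e : (fun R : ℝ => ∫ α in Icc (-α₀) α₀, κ α * (A * win D W α R)) = fun R : ℝ => ∫ α in (-α₀)..α₀, κ α * (A * win D W α R) := by
        funext R
        rw [integral_Icc_eq_integral_Ioc, ← intervalIntegral.integral_of_le (by linarith)]
      rw [e]
      exact intervalIntegral.continuous_parametric_intervalIntegral_of_continuous' (f := fun R α => κ α * (A * win D W α R)) hjc (-α₀) α₀
    have hswap : ∫ R in Icc X (2 * X), (∫ α in Icc (-α₀) α₀, κ α * (A * win D W α R)) =
        ∫ α in Icc (-α₀) α₀, (∫ R in Icc X (2 * X), κ α * (A * win D W α R)) := by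
      refine integral_integral_swap (f := fun R α => κ α * (A * win D W α R)) ?_
      rw [Measure.prod_restrict]
      exact hjc.continuousOn.integrableOn_compact (isCompact_Icc.prod isCompact_Icc)
    have hin : ∀ α, ∫ R in Icc X (2 * X), κ α * (A * win D W α R) ≤ (2 * W * A) * (κ α * ∫ r in Icc (X / 4) (8 * X), D (α, r)) := by
      intro α
      have hDα : Continuous fun r : ℝ => D (α, r) := hD.comp (continuous_const.prodMk continuous_id)
      have h1 := (Pool.Agent.Helper54.LP.win_int hDα (fun r => hD0 _) (show X ≤ 2 * X by linarith) hW.le).2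
      have h2 : ∫ r in Icc (X - W) (2 * X + W), D (α, r) ≤ ∫ r in Icc (X / 4) (8 * X), D (α, r) := by
        refine setIntegral_mono_set (hDα.continuousOn.integrableOn_compact isCompact_Icc) (Eventually.of_forall fun r => hD0 _)
          (Eventually.of_forall (Icc_subset_Icc (by linarith) (by linarith)))
      have h3 : ∫ R in Icc X (2 * X), win D W α R ≤ 2 * W * ∫ r in Icc (X / 4) (8 * X), D (α, r) :=
        h1.trans (mul_le_mul_of_nonneg_left h2 (by positivity))
      rw [integral_const_mul, integral_const_mul]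
      calc κ α * (A * ∫ R in Icc X (2 * X), win D W α R) ≤ κ α * (A * (2 * W * ∫ r in Icc (X / 4) (8 * X), D (α, r))) :=
            mul_le_mul_of_nonneg_left (mul_le_mul_of_nonneg_left h3 hA.le) (hκ0 α)
        _ = _ := by ring
    have hDc : Continuous fun α : ℝ => ∫ r in Icc (X / 4) (8 * X), D (α, r) := by
      have e : (fun α : ℝ => ∫ r in Icc (X / 4) (8 * X), D (α, r)) = fun α : ℝ => ∫ r in (X / 4)..(8 * X), D (α, r) := by
        funext α
        rw [integral_Icc_eq_integral_Ioc, ← intervalIntegral.integral_of_le (by linarith)]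
      rw [e]
      exact intervalIntegral.continuous_parametric_intervalIntegral_of_continuous' (f := fun α r => D (α, r)) hD (X / 4) (8 * X)
    have hinc : Continuous fun α : ℝ => ∫ R in Icc X (2 * X), κ α * (A * win D W α R) := by
      have e : (fun α : ℝ => ∫ R in Icc X (2 * X), κ α * (A * win D W α R)) = fun α : ℝ => ∫ R in X..(2 * X), κ α * (A * win D W α R) := by
        funext α
        rw [integral_Icc_eq_integral_Ioc, ← intervalIntegral.integral_of_le (by linarith)]
      rw [e]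
      exact intervalIntegral.continuous_parametric_intervalIntegral_of_continuous' (f := fun α R => κ α * (A * win D W α R))
        (hjc.comp continuous_swap) X (2 * X)
    calc ∫ R in Icc X (2 * X), GB κ g₀ D α₀ A W q R ^ q ≤
          ∫ R in Icc X (2 * X), 21 ^ q * ∫ α in Icc (-α₀) α₀, κ α * (A * win D W α R) := by
          refine setIntegral_mono_on ?_ ?_ measurableSet_Icc fun R _ => hpt R
          · exact (hc.pow q).continuousOn.integrableOn_compact isCompact_Icc
          · exact (continuous_const.mul hSc).continuousOn.integrableOn_compact isCompact_Icc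
      _ = 21 ^ q * ∫ α in Icc (-α₀) α₀, (∫ R in Icc X (2 * X), κ α * (A * win D W α R)) := by
          rw [integral_const_mul, hswap]
      _ ≤ 21 ^ q * ∫ α in Icc (-α₀) α₀, (2 * W * A) * (κ α * ∫ r in Icc (X / 4) (8 * X), D (α, r)) := by
          refine mul_le_mul_of_nonneg_left ?_ (by positivity)
          refine setIntegral_mono_on ?_ ?_ measurableSet_Icc fun α _ => hin α
          · exact hinc.continuousOn.integrableOn_compact isCompact_Icc
          · exact (continuous_const.mul (hκ.mul hDc)).continuousOn.integrableOn_compact isCompact_Icc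
      _ = 21 ^ q * ((2 * W * A) * ∫ α in Icc (-α₀) α₀, κ α * ∫ r in Icc (X / 4) (8 * X), D (α, r)) := by
          rw [integral_const_mul]
      _ ≤ 21 ^ q * ((2 * W * A) * I) := by gcongr
      _ = _ := by ring

end Pool.Agent.Helper60.LM
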